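import Mathlib
import Pool.Agent.H47.DZLower

/-!
# Distinct real zeros of polynomials with bounded coefficients (question Q1)

We determine the order of magnitude of `N(B_n; a)`, the largest number of distinct zeros in
`[-1 + a, 1 - a]` of a polynomial of the class `B_n`, for `n^(-1/2) ≤ a < 1`.
-/

set_option autoImplicit false

namespace Pool.Agent.Results.MP_a4d033_an.BoundedCoeff

open Polynomial

/-- The class `B_n`: complex polynomials of degree at most `n` with `|a_0| = 1` and `|a_j| ≤ 1` for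
`1 ≤ j ≤ n`. -/
def B (n : ℕ) : Set ℂ[X] :=
  {p | p.natDegree ≤ n ∧ ‖p.coeff 0‖ = 1 ∧ ∀ j, 1 ≤ j → j ≤ n → ‖p.coeff j‖ ≤ 1}

/-- `k` belongs to `counts S a` iff some nonzero `p ∈ S` has `k` pairwise distinct real zeros in
`[-1 + a, 1 - a]`. -/
def counts (S : Set ℂ[X]) (a : ℝ) : Set ℕ :=
  {k | ∃ p ∈ S, p ≠ 0 ∧ ∃ Z : Finset ℝ, Z.card = k ∧
    ∀ x ∈ Z, x ∈ Set.Icc (-1 + a) (1 - a) ∧ p.eval (x : ℂ) = 0}

/-- `N(S; a)`: the largest number of pairwise distinct real zeros in `[-1 + a, 1 - a]` of a single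
nonzero `p ∈ S` (that the supremum is a maximum is part of `result`). -/
noncomputable def N (S : Set ℂ[X]) (a : ℝ) : ℕ := sSup (counts S a)

lemma norm_coeff_le {n : ℕ} {p : ℂ[X]} (hp : p ∈ B n) (j : ℕ) : ‖p.coeff j‖ ≤ 1 := by
  obtain ⟨h1, h2, h3⟩ := hp
  rcases Nat.eq_zero_or_pos j with h | h
  · subst h; exact h2.le
  · rcases Nat.lt_or_ge n j with h' | h'
    · rw [coeff_eq_zero_of_natDegree_lt (by omega)]; simp
    · exact h3 j h h'

lemma count_le {n : ℕ} {a : ℝ} (ha0 : 0 < a) (ha1 : a < 1) {k : ℕ} (hk : k ∈ counts (B n) a) :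
    (k : ℝ) ≤ 30 / a := by
  obtain ⟨p, hp, hp0, Z, hZ, hZ'⟩ := hk
  have h1 := H47.DZ.upper_card p hp.2.1 (norm_coeff_le hp) a ha0 ha1
  have h2 : (Z : Set ℝ) ⊆ H47.DZ.zeroSet p a := by
    intro x hx
    exact hZ' x hx
  have h3 := Set.ncard_le_ncard h2 (H47.DZ.zeroSet_finite p hp0 a)
  rw [Set.ncard_coe_finset, hZ] at h3
  exact le_trans (by exact_mod_cast h3) h1

/-- For `n ≥ 1` and `n^(-1/2) ≤ a < 1`: `N(B_n; a) ≤ 30 / a`, and `N(B_n; a) ≥ 1 / (288 a)` as soon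
as `a ≤ 2/5` or `N(B_n; a) ≥ 1`; moreover `N(B_n; a) = 0` for `a ≥ 1/2`. -/
theorem result (n : ℕ) (hn : 1 ≤ n) (a : ℝ) (ha : 1 / Real.sqrt n ≤ a) (ha1 : a < 1) :
    IsGreatest (counts (B n) a) (N (B n) a) ∧
    (N (B n) a : ℝ) ≤ 30 / a ∧
    (a ≤ 2 / 5 → 1 / (288 * a) ≤ (N (B n) a : ℝ)) ∧
    (1 ≤ N (B n) a → 1 / (288 * a) ≤ (N (B n) a : ℝ)) ∧
    (1 / 2 ≤ a → N (B n) a = 0) := by
  classical
  have hn' : (1 : ℝ) ≤ n := by exact_mod_cast hn
  have hsq : 0 < Real.sqrt n := Real.sqrt_pos.2 (by linarith)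
  have ha0 : 0 < a := lt_of_lt_of_le (by positivity) ha
  have hbdd : BddAbove (counts (B n) a) := by
    refine ⟨⌊30 / a⌋₊, fun k hk => ?_⟩
    exact Nat.le_floor (count_le ha0 ha1 hk)
  have hne : (counts (B n) a).Nonempty := by
    refine ⟨0, 1, ⟨?_, ?_, ?_⟩, one_ne_zero, ∅, rfl, by simp⟩
    · simp
    · simp
    · intro j hj _
      rw [coeff_one, if_neg (by omega)]; simp
  have hmem : N (B n) a ∈ counts (B n) a := Nat.sSup_mem hne hbdd
  have hgreat : IsGreatest (counts (B n) a) (N (B n) a) :=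
    ⟨hmem, fun k hk => le_csSup hbdd hk⟩
  have hlow : a ≤ 2 / 5 → 1 / (288 * a) ≤ (N (B n) a : ℝ) := by
    intro ha2
    obtain ⟨E, hE0, hEc, hEd, S, hS1, _, hS2⟩ := H47.DZ.lower_real n hn a ha ha2
    have hk : S.card ∈ counts (B n) a := by
      refine ⟨E.map Complex.ofRealHom, ⟨?_, ?_, ?_⟩, ?_, S, rfl, ?_⟩
      · refine (natDegree_map_le).trans ?_
        rw [natDegree_le_iff_coeff_eq_zero]
        exact fun i hi => hEd i hi
      · rw [coeff_map]
        rcases hE0 with h | h <;> rw [h] <;> simp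
      · intro j _ _
        rw [coeff_map]
        rcases hEc j with h | h | h <;> rw [h] <;> simp
      · intro h
        have h2 := congrArg (fun q => q.coeff 0) h
        simp only [coeff_map, coeff_zero] at h2
        rcases hE0 with h3 | h3 <;> rw [h3] at h2 <;> simp at h2
      · intro x hx
        obtain ⟨h1, h2, h3⟩ := hS2 x hx
        refine ⟨⟨by linarith, h2⟩, ?_⟩
        have : (E.map Complex.ofRealHom).eval (x : ℂ) = ((E.eval x : ℝ) : ℂ) := by
          rw [eval_map, ← Complex.ofRealHom_eq_coe, eval₂_hom]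
          rfl
        rw [this, h3]; simp
    have := hgreat.2 hk
    refine hS1.trans ?_
    exact_mod_cast this
  refine ⟨hgreat, count_le ha0 ha1 hmem, hlow, ?_, ?_⟩
  · intro h1
    rcases le_or_gt a (2 / 5) with h | h
    · exact hlow h
    · have h2 : 1 / (288 * a) ≤ 1 := by
        rw [div_le_iff₀ (by positivity)]; linarith
      have h3 : (1 : ℝ) ≤ N (B n) a := by exact_mod_cast h1
      linarith
  · intro ha2
    by_contra hcon
    obtain ⟨p, hp, _, Z, hZ, hZ'⟩ := hmem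
    have hpos : 0 < Z.card := by rw [hZ]; omega
    obtain ⟨x, hx⟩ := Finset.card_pos.1 hpos
    obtain ⟨⟨hx1, hx2⟩, hx3⟩ := hZ' x hx
    have habs : |x| ≤ 1 / 2 := abs_le.2 ⟨by linarith, by linarith⟩
    have hnx : ‖(x : ℂ)‖ = |x| := by rw [Complex.norm_real, Real.norm_eq_abs]
    -- p(x) = 0 gives 1 ≤ ∑_{j=1}^{n} |x|^j < 1
    rw [eval_eq_sum_range' (n := n + 1) (by have := hp.1; omega), Finset.sum_range_succ'] at hx3
    simp only [pow_zero, mul_one] at hx3
    have h1 : ‖p.coeff 0‖ = ‖∑ k ∈ Finset.range n, p.coeff (k + 1) * (x : ℂ) ^ (k + 1)‖ := by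
      rw [← norm_neg (p.coeff 0)]
      congr 1
      linear_combination -hx3
    rw [hp.2.1] at h1
    have h2 : ‖∑ k ∈ Finset.range n, p.coeff (k + 1) * (x : ℂ) ^ (k + 1)‖
        ≤ ∑ k ∈ Finset.range n, (1 / 2 : ℝ) ^ (k + 1) := by
      refine (norm_sum_le _ _).trans (Finset.sum_le_sum fun k _ => ?_)
      rw [norm_mul, norm_pow, hnx]
      calc ‖p.coeff (k + 1)‖ * |x| ^ (k + 1) ≤ 1 * (1 / 2 : ℝ) ^ (k + 1) :=
            mul_le_mul (norm_coeff_le hp _) (pow_le_pow_left₀ (abs_nonneg x) habs _)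
              (by positivity) (by norm_num)
        _ = (1 / 2 : ℝ) ^ (k + 1) := one_mul _
    have h3 : ∀ d : ℕ, ∑ k ∈ Finset.range d, (1 / 2 : ℝ) ^ (k + 1) = 1 - (1 / 2) ^ d := by
      intro d
      induction d with
      | zero => simp
      | succ d ih => rw [Finset.sum_range_succ, ih, pow_succ]; ring
    rw [h3 n] at h2
    have h4 : (0 : ℝ) < (1 / 2) ^ n := by positivity
    linarith

end Pool.Agent.Results.MP_a4d033_an.BoundedCoeff
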