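import Mathlib
import Pool.Agent.H47.DZLower

/-!
# Distinct real zeros of polynomials with coefficients in `{-1, 0, 1}` (question Q2)

We determine the order of magnitude of `N(F_n; a)`, the largest number of distinct zeros in
`[-1 + a, 1 - a]` of a nonzero polynomial of the class `F_n`, for `n^(-1/2) ≤ a < 1`.
-/

set_option autoImplicit false

namespace Pool.Agent.Results.MP_a4d033_an.TernaryCoeff

open Polynomial

/-- The class `F_n`: polynomials of degree at most `n` all of whose coefficients are `-1`, `0` or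
`1` (viewed as complex polynomials). -/
def F (n : ℕ) : Set ℂ[X] :=
  {p | p.natDegree ≤ n ∧ ∀ j, p.coeff j = -1 ∨ p.coeff j = 0 ∨ p.coeff j = 1}

/-- `k` belongs to `counts S a` iff some nonzero `p ∈ S` has `k` pairwise distinct real zeros in
`[-1 + a, 1 - a]`. -/
def counts (S : Set ℂ[X]) (a : ℝ) : Set ℕ :=
  {k | ∃ p ∈ S, p ≠ 0 ∧ ∃ Z : Finset ℝ, Z.card = k ∧
    ∀ x ∈ Z, x ∈ Set.Icc (-1 + a) (1 - a) ∧ p.eval (x : ℂ) = 0}

/-- `N(S; a)`: the largest number of pairwise distinct real zeros in `[-1 + a, 1 - a]` of a single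
nonzero `p ∈ S` (that the supremum is a maximum is part of `result`). -/
noncomputable def N (S : Set ℂ[X]) (a : ℝ) : ℕ := sSup (counts S a)

lemma count_le {n : ℕ} {a : ℝ} (ha0 : 0 < a) (ha1 : a < 1) {k : ℕ} (hk : k ∈ counts (F n) a) :
    (k : ℝ) ≤ 31 / a := by
  classical
  obtain ⟨p, hp, hp0, Z, hZ, hZ'⟩ := hk
  -- divide by the power of `X`
  have hdvd : X ^ p.natTrailingDegree ∣ p := by
    rw [X_pow_dvd_iff]
    intro d hd
    exact coeff_eq_zero_of_lt_natTrailingDegree hd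
  obtain ⟨q, hq⟩ := hdvd
  have hcoef : ∀ i, q.coeff i = p.coeff (i + p.natTrailingDegree) := by
    intro i
    have h := coeff_X_pow_mul q p.natTrailingDegree i
    rw [← hq] at h
    exact h.symm
  have hq1 : ∀ j, ‖q.coeff j‖ ≤ 1 := by
    intro j
    rw [hcoef]
    rcases hp.2 (j + p.natTrailingDegree) with h | h | h <;> rw [h] <;> simp
  have hq0 : ‖q.coeff 0‖ = 1 := by
    rw [hcoef 0, zero_add]
    have h1 : p.coeff p.natTrailingDegree ≠ 0 :=
      (trailingCoeff_nonzero_iff_nonzero (p := p)).2 hp0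
    rcases hp.2 p.natTrailingDegree with h | h | h
    · rw [h]; simp
    · exact absurd h h1
    · rw [h]; simp
  have hqne : q ≠ 0 := by rintro rfl; simp at hq0
  have h1 := H47.DZ.upper_card q hq0 hq1 a ha0 ha1
  have h2 : ((Z.erase 0 : Finset ℝ) : Set ℝ) ⊆ H47.DZ.zeroSet q a := by
    intro x hx
    rw [Finset.mem_coe, Finset.mem_erase] at hx
    obtain ⟨h3, h4⟩ := hZ' x hx.2
    refine ⟨h3, ?_⟩
    rw [hq, eval_mul, eval_pow, eval_X] at h4
    rcases mul_eq_zero.1 h4 with h | h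
    · exact absurd h (pow_ne_zero _ (by exact_mod_cast hx.1))
    · exact h
  have h3 := Set.ncard_le_ncard h2 (H47.DZ.zeroSet_finite q hqne a)
  rw [Set.ncard_coe_finset] at h3
  have h4 : Z.card ≤ (Z.erase 0).card + 1 := by
    have := Finset.pred_card_le_card_erase (s := Z) (a := (0 : ℝ))
    omega
  have h5 : (k : ℝ) ≤ ((H47.DZ.zeroSet q a).ncard : ℝ) + 1 := by
    rw [← hZ]
    exact_mod_cast h4.trans (by omega)
  have h6 : 1 ≤ 1 / a := by rw [le_div_iff₀ ha0]; linarith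
  have h7 : 31 / a = 30 / a + 1 / a := by ring
  linarith

/-- For `n ≥ 1` and `n^(-1/2) ≤ a < 1`: `1 / (288 a) ≤ N(F_n; a) ≤ 31 / a`. Moreover, for
`a ≤ 2/5` the lower bound is attained by positive zeros of a polynomial in `F_n` that does not
vanish at `0`. -/
theorem result (n : ℕ) (hn : 1 ≤ n) (a : ℝ) (ha : 1 / Real.sqrt n ≤ a) (ha1 : a < 1) :
    IsGreatest (counts (F n) a) (N (F n) a) ∧
    1 / (288 * a) ≤ (N (F n) a : ℝ) ∧ (N (F n) a : ℝ) ≤ 31 / a ∧
    (a ≤ 2 / 5 → ∃ p ∈ F n, p.coeff 0 ≠ 0 ∧ ∃ Z : Finset ℝ, 1 / (288 * a) ≤ (Z.card : ℝ) ∧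
      ∀ x ∈ Z, 0 < x ∧ x ≤ 1 - a ∧ p.eval (x : ℂ) = 0) := by
  classical
  have hn' : (1 : ℝ) ≤ n := by exact_mod_cast hn
  have hsq : 0 < Real.sqrt n := Real.sqrt_pos.2 (by linarith)
  have ha0 : 0 < a := lt_of_lt_of_le (by positivity) ha
  have hbdd : BddAbove (counts (F n) a) := by
    refine ⟨⌊31 / a⌋₊, fun k hk => ?_⟩
    exact Nat.le_floor (count_le ha0 ha1 hk)
  -- the polynomial `X` has the zero `0`
  have hone : 1 ∈ counts (F n) a := by
    refine ⟨X, ⟨natDegree_X_le.trans hn, fun j => ?_⟩, X_ne_zero, {0}, by simp, ?_⟩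
    · rw [coeff_X]
      split_ifs <;> simp
    · intro x hx
      rw [Finset.mem_singleton] at hx
      subst hx
      exact ⟨⟨by linarith, by linarith⟩, by simp⟩
  have hmem : N (F n) a ∈ counts (F n) a := Nat.sSup_mem ⟨1, hone⟩ hbdd
  have hgreat : IsGreatest (counts (F n) a) (N (F n) a) :=
    ⟨hmem, fun k hk => le_csSup hbdd hk⟩
  have hlow : a ≤ 2 / 5 → ∃ p ∈ F n, p.coeff 0 ≠ 0 ∧ ∃ Z : Finset ℝ, 1 / (288 * a) ≤ (Z.card : ℝ) ∧
      ∀ x ∈ Z, 0 < x ∧ x ≤ 1 - a ∧ p.eval (x : ℂ) = 0 := by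
    intro ha2
    obtain ⟨E, hE0, hEc, hEd, S, hS1, _, hS2⟩ := H47.DZ.lower_real n hn a ha ha2
    refine ⟨E.map Complex.ofRealHom, ⟨?_, ?_⟩, ?_, S, hS1, ?_⟩
    · refine (natDegree_map_le).trans ?_
      rw [natDegree_le_iff_coeff_eq_zero]
      exact fun i hi => hEd i hi
    · intro j
      rw [coeff_map]
      rcases hEc j with h | h | h <;> rw [h] <;> simp
    · rw [coeff_map]
      rcases hE0 with h | h <;> rw [h] <;> simp
    · intro x hx
      obtain ⟨h1, h2, h3⟩ := hS2 x hx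
      refine ⟨h1, h2, ?_⟩
      have : (E.map Complex.ofRealHom).eval (x : ℂ) = ((E.eval x : ℝ) : ℂ) := by
        rw [eval_map, ← Complex.ofRealHom_eq_coe, eval₂_hom]
        rfl
      rw [this, h3]; simp
  refine ⟨hgreat, ?_, count_le ha0 ha1 hmem, hlow⟩
  rcases le_or_gt a (2 / 5) with h | h
  · obtain ⟨p, hp, hp0, Z, hZ1, hZ2⟩ := hlow h
    have hk : Z.card ∈ counts (F n) a := by
      refine ⟨p, hp, ?_, Z, rfl, fun x hx => ?_⟩
      · rintro rfl; simp at hp0
      · obtain ⟨h1, h2, h3⟩ := hZ2 x hx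
        exact ⟨⟨by linarith, h2⟩, h3⟩
    have := hgreat.2 hk
    refine hZ1.trans ?_
    exact_mod_cast this
  · have h2 : 1 / (288 * a) ≤ 1 := by
      rw [div_le_iff₀ (by positivity)]; linarith
    have h3 : (1 : ℝ) ≤ N (F n) a := by exact_mod_cast hgreat.2 hone
    linarith

end Pool.Agent.Results.MP_a4d033_an.TernaryCoeff
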